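import Pool.Agent.W314.BA.Stm

/-! MP_f2742c_an, part RE: a gap for one operator `1 - A X` gives a gap for the Laplacian. -/

set_option autoImplicit false

open MeasureTheory Set Filter Topology
open scoped InnerProductSpace

namespace Pool.Agent.W494.BA.RE

open Pool.Agent.W314.BA

noncomputable section

variable {H : Type} [NormedAddCommGroup H] [InnerProductSpace ℂ H]

theorem re_smul_left (r : ℝ) (u v : H) : (⟪r • u, v⟫_ℂ).re = r * (⟪u, v⟫_ℂ).re := by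
  rw [inner_smul_left_eq_smul]; simp

theorem re_smul_right (r : ℝ) (u v : H) : (⟪u, r • v⟫_ℂ).re = r * (⟪u, v⟫_ℂ).re := by
  rw [inner_smul_right_eq_smul]; simp

theorem re_symm (u v : H) : (⟪u, v⟫_ℂ).re = (⟪v, u⟫_ℂ).re := inner_re_symm (𝕜 := ℂ) u v

theorem re_le (u v : H) : (⟪u, v⟫_ℂ).re ≤ ‖u‖ * ‖v‖ := re_inner_le_norm (𝕜 := ℂ) u v

theorem re_self (u : H) : (⟪u, u⟫_ℂ).re = ‖u‖ ^ 2 := by
  have := inner_self_eq_norm_sq (𝕜 := ℂ) u
  exact this

/-- the infinitesimal form of a pair -/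
def LP (A : ℝ → H →L[ℂ] H) (f g : H) : Prop :=
  Tendsto (fun X : ℝ => (X - 1)⁻¹ • (f - A X f)) (𝓝[>] 1) (𝓝 ((4 : ℝ)⁻¹ • g))

theorem LP.comb {A : ℝ → H →L[ℂ] H} {f g f' g' : H} (h : LP A f g) (h' : LP A f' g') (t : ℝ) :
    LP A (f + t • f') (g + t • g') := by
  unfold LP at *
  have h1 := h.add (h'.const_smul t)
  have e1 : (4 : ℝ)⁻¹ • g + t • (4 : ℝ)⁻¹ • g' = (4 : ℝ)⁻¹ • (g + t • g') := by
    rw [smul_add, smul_comm t]
  rw [e1] at h1
  refine h1.congr (fun X => ?_)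
  have e2 : A X (f + t • f') = A X f + t • A X f' := by
    rw [map_add, ContinuousLinearMap.map_smul_of_tower]
  rw [e2]
  module

theorem LP.app {A : ℝ → H →L[ℂ] H} (hA : AvSys A) {f g : H} (h : LP A f g) {y : ℝ} (hy : 1 < y) :
    LP A (A y f) (A y g) := by
  unfold LP at *
  have h1 := ((A y).continuous.tendsto _).comp h
  have e1 : A y ((4 : ℝ)⁻¹ • g) = (4 : ℝ)⁻¹ • A y g :=
    ContinuousLinearMap.map_smul_of_tower _ _ _
  rw [e1] at h1
  refine h1.congr' ?_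
  filter_upwards [self_mem_nhdsWithin] with X hX
  have hX' : (1 : ℝ) < X := hX
  show A y ((X - 1)⁻¹ • (f - A X f)) = (X - 1)⁻¹ • (A y f - A X (A y f))
  rw [ContinuousLinearMap.map_smul_of_tower, map_sub, hA.comm y X hy hX']

theorem gap_nonneg {A : ℝ → H →L[ℂ] H} (hA : AvSys A) (f : H) {X : ℝ} (hX : 1 < X) :
    0 ≤ (⟪f - A X f, f⟫_ℂ).re := by
  rw [inner_sub_left, Complex.sub_re, re_self]
  have h1 := re_le (A X f) f
  have h2 := hA.con X hX f
  have h3 := mul_le_mul_of_nonneg_right h2 (norm_nonneg f)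
  nlinarith

theorem LP.tend {A : ℝ → H →L[ℂ] H} {f g : H} (h : LP A f g) (v : H) :
    Tendsto (fun X : ℝ => (X - 1)⁻¹ * (⟪f - A X f, v⟫_ℂ).re) (𝓝[>] 1)
      (𝓝 ((4 : ℝ)⁻¹ * (⟪g, v⟫_ℂ).re)) := by
  have h1 : Tendsto (fun X : ℝ => (⟪(X - 1)⁻¹ • (f - A X f), v⟫_ℂ).re) (𝓝[>] 1)
      (𝓝 ((⟪(4 : ℝ)⁻¹ • g, v⟫_ℂ).re)) :=
    (Complex.continuous_re.tendsto _).comp (Filter.Tendsto.inner h tendsto_const_nhds)
  simp only [re_smul_left] at h1
  exact h1

theorem LP.nonneg {A : ℝ → H →L[ℂ] H} (hA : AvSys A) {f g : H} (h : LP A f g) :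
    0 ≤ (⟪g, f⟫_ℂ).re := by
  have h2 : 0 ≤ (4 : ℝ)⁻¹ * (⟪g, f⟫_ℂ).re := by
    refine ge_of_tendsto (h.tend f) ?_
    filter_upwards [self_mem_nhdsWithin] with X hX
    have hX' : (1 : ℝ) < X := hX
    have h3 : 0 < (X - 1)⁻¹ := inv_pos.2 (by linarith)
    exact mul_nonneg h3.le (gap_nonneg hA f hX')
  linarith

theorem LP.symm {A : ℝ → H →L[ℂ] H} (hA : AvSys A) {f g f' g' : H} (h : LP A f g)
    (h' : LP A f' g') : (⟪g, f'⟫_ℂ).re = (⟪g', f⟫_ℂ).re := by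
  have h1 := h.tend f'
  have h2 := h'.tend f
  have h3 : Tendsto (fun X : ℝ => (X - 1)⁻¹ * (⟪f - A X f, f'⟫_ℂ).re) (𝓝[>] 1)
      (𝓝 ((4 : ℝ)⁻¹ * (⟪g', f⟫_ℂ).re)) := by
    refine h2.congr' ?_
    filter_upwards [self_mem_nhdsWithin] with X hX
    have hX' : (1 : ℝ) < X := hX
    rw [inner_sub_left, inner_sub_left, hA.sa X hX', Complex.sub_re, Complex.sub_re,
      re_symm f' f, re_symm f' (A X f)]
  have h4 := tendsto_nhds_unique h1 h3
  linarith

theorem LP.cs {A : ℝ → H →L[ℂ] H} (hA : AvSys A) {f g f' g' : H} (h : LP A f g)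
    (h' : LP A f' g') : (⟪g, f'⟫_ℂ).re ^ 2 ≤ (⟪g, f⟫_ℂ).re * (⟪g', f'⟫_ℂ).re := by
  have h1 : ∀ t : ℝ, 0 ≤ (⟪g', f'⟫_ℂ).re * (t * t) + (2 * (⟪g, f'⟫_ℂ).re) * t +
      (⟪g, f⟫_ℂ).re := by
    intro t
    have h2 := (h.comb h' t).nonneg hA
    rw [inner_add_left, inner_add_right, inner_add_right, Complex.add_re, Complex.add_re,
      Complex.add_re, re_smul_left, re_smul_left, re_smul_right, re_smul_right] at h2
    have h3 := h.symm hA h'
    rw [← h3] at h2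
    nlinarith
  have h2 := discrim_le_zero h1
  unfold discrim at h2
  nlinarith

/-- integrability -/
theorem ii {A : ℝ → H →L[ℂ] H} (hA : AvSys A) {g : H}
    (hc : ContinuousOn (fun x => A x g) (Ioi 1)) (w : ℝ → ℝ) (hw : ContinuousOn w (Ioi 0))
    {X : ℝ} (hX : 1 < X) (C : ℝ) (hC : ∀ t ∈ Ioc 1 X, |w t| ≤ C) :
    IntervalIntegrable (fun t => w t • A t g) volume 1 X := by
  rw [intervalIntegrable_iff, uIoc_of_le hX.le]
  have hs : Ioc 1 X ⊆ Ioi (1 : ℝ) := fun t ht => ht.1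
  have hc1 : ContinuousOn (fun t => w t • A t g) (Ioc 1 X) := by
    have hw1 : ContinuousOn w (Ioc 1 X) :=
      hw.mono (fun t (ht : t ∈ Ioc 1 X) => lt_trans one_pos ht.1)
    exact hw1.smul (hc.mono hs)
  refine Integrable.of_bound (hc1.aestronglyMeasurable measurableSet_Ioc) (C * ‖g‖) ?_
  · rw [ae_restrict_iff' measurableSet_Ioc]
    refine Eventually.of_forall (fun t ht => ?_)
    rw [norm_smul, Real.norm_eq_abs]
    exact mul_le_mul (hC t ht) (hA.con t ht.1 g) (norm_nonneg _) ((abs_nonneg _).trans (hC t ht))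

theorem int_lin (X : ℝ) : ∫ t in (1 : ℝ)..X, (X - t) / 2 = (X - 1) ^ 2 / 4 := by
  rw [intervalIntegral.integral_div, intervalIntegral.integral_sub (by simp) (by simp)]
  simp
  ring

theorem wcont (X : ℝ) : ContinuousOn (fun t : ℝ => (X - t) / (t + 1)) (Ioi 0) := by
  apply ContinuousOn.div
  · fun_prop
  · fun_prop
  · intro t ht
    have : (0 : ℝ) < t := ht
    linarith

theorem wbd {X : ℝ} : ∀ t ∈ Ioc 1 X, |(X - t) / (t + 1)| ≤ X - 1 := by
  intro t ht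
  have h1 : 1 < t := ht.1
  have h2 : t ≤ X := ht.2
  rw [abs_of_nonneg (by apply div_nonneg <;> linarith), div_le_iff₀ (by linarith)]
  nlinarith

theorem pair_LP [CompleteSpace H] {A : ℝ → H →L[ℂ] H} (hA : AvSys A) {f g : H} (hP : Pair A f g) : LP A f g := by
  unfold LP
  rw [Metric.tendsto_nhdsWithin_nhds]
  intro ε hε
  -- the integrand
  have hφ : Tendsto (fun t : ℝ => (t + 1)⁻¹ • A t g - (2 : ℝ)⁻¹ • g) (𝓝[>] 1) (𝓝 0) := by
    have h1 : Tendsto (fun t : ℝ => (t + 1)⁻¹) (𝓝[>] 1) (𝓝 ((2 : ℝ)⁻¹)) := by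
      have h2 : ContinuousAt (fun t : ℝ => (t + 1)⁻¹) 1 := by
        apply ContinuousAt.inv₀
        · fun_prop
        · norm_num
      have h3 := h2.tendsto
      norm_num at h3
      have h4 : (2 : ℝ)⁻¹ = 1 / 2 := by norm_num
      rw [h4]
      exact h3.mono_left nhdsWithin_le_nhds
    have h2 := (h1.smul hP.lim).sub (tendsto_const_nhds (x := (2 : ℝ)⁻¹ • g))
    rwa [sub_self] at h2
  rw [Metric.tendsto_nhdsWithin_nhds] at hφ
  obtain ⟨δ, hδ, hφ⟩ := hφ (ε / 2) (by positivity)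
  refine ⟨δ, hδ, ?_⟩
  intro X hX hXδ
  have hX' : (1 : ℝ) < X := hX
  have e1 : f - A X f = (X - 1)⁻¹ • ∫ t in (1 : ℝ)..X, ((X - t) / (t + 1)) • A t g := by
    have := hP.eq X hX'
    rw [this]; abel
  have e2 : (4 : ℝ)⁻¹ • g = ((X - 1)⁻¹ * (X - 1)⁻¹) • ∫ t in (1 : ℝ)..X, ((X - t) / 2) • g := by
    rw [intervalIntegral.integral_smul_const, int_lin, smul_smul]
    congr 1
    have : X - 1 ≠ 0 := by linarith
    field_simp
  have hi1 := ii hA hP.cont _ (wcont X) hX' _ wbd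
  have hi2 : IntervalIntegrable (fun t => ((X - t) / 2) • g) volume 1 X := by
    apply Continuous.intervalIntegrable
    fun_prop
  rw [dist_eq_norm, e1, e2, smul_smul, ← smul_sub, ← intervalIntegral.integral_sub hi1 hi2,
    norm_smul]
  have hb : ‖∫ t in (1 : ℝ)..X, (((X - t) / (t + 1)) • A t g - ((X - t) / 2) • g)‖ ≤
      ((X - 1) * (ε / 2)) * |X - 1| := by
    apply intervalIntegral.norm_integral_le_of_norm_le_const
    intro t ht
    rw [uIoc_of_le hX'.le] at ht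
    have h1 : 1 < t := ht.1
    have h2 : t ≤ X := ht.2
    have h3 : ((X - t) / (t + 1)) • A t g - ((X - t) / 2) • g =
        (X - t) • ((t + 1)⁻¹ • A t g - (2 : ℝ)⁻¹ • g) := by
      rw [smul_sub, smul_smul, smul_smul]; rfl
    rw [h3, norm_smul, Real.norm_eq_abs, abs_of_nonneg (by linarith)]
    have h4 : ‖(t + 1)⁻¹ • A t g - (2 : ℝ)⁻¹ • g‖ < ε / 2 := by
      have h5 := @hφ t h1 (by
        rw [Real.dist_eq] at hXδ ⊢
        rw [abs_of_pos (by linarith)] at hXδ ⊢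
        linarith)
      rwa [dist_zero_right] at h5
    exact mul_le_mul (by linarith) h4.le (norm_nonneg _) (by linarith)
  have hXp : 0 < X - 1 := by linarith
  rw [Real.norm_eq_abs, abs_of_pos (by positivity)]
  calc (X - 1)⁻¹ * (X - 1)⁻¹ *
        ‖∫ t in (1 : ℝ)..X, (((X - t) / (t + 1)) • A t g - ((X - t) / 2) • g)‖
      ≤ (X - 1)⁻¹ * (X - 1)⁻¹ * (((X - 1) * (ε / 2)) * |X - 1|) := by gcongr
    _ = ε / 2 := by
        rw [abs_of_pos hXp]; field_simp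
    _ < ε := by linarith

theorem a1_le {A : ℝ → H →L[ℂ] H} (hA : AvSys A) {f g : H} (h : LP A f g) {y : ℝ} (hy : 1 < y) :
    (⟪A y g, f⟫_ℂ).re ≤ (⟪g, f⟫_ℂ).re := by
  set B : H → H := fun u => A y u with hB
  have hLP : ∀ n : ℕ, LP A (B^[n] f) (B^[n] g) := by
    intro n
    induction n with
    | zero => exact h
    | succ n ih =>
      rw [Function.iterate_succ_apply', Function.iterate_succ_apply']
      exact ih.app hA hy
  have hsa : ∀ (n : ℕ) (u v : H), ⟪B^[n] u, v⟫_ℂ = ⟪u, B^[n] v⟫_ℂ := by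
    intro n
    induction n with
    | zero => intro u v; rfl
    | succ n ih =>
      intro u v
      rw [Function.iterate_succ_apply, Function.iterate_succ_apply', ih]
      exact hA.sa y hy _ _
  have hcon : ∀ (n : ℕ) (u : H), ‖B^[n] u‖ ≤ ‖u‖ := by
    intro n
    induction n with
    | zero => intro u; exact le_refl _
    | succ n ih =>
      intro u
      rw [Function.iterate_succ_apply']
      exact (hA.con y hy _).trans (ih u)
  set a : ℕ → ℝ := fun n => (⟪B^[n] g, f⟫_ℂ).re with ha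
  have hij : ∀ i j : ℕ, (⟪B^[i] g, B^[j] f⟫_ℂ).re = a (i + j) := by
    intro i j
    show _ = (⟪B^[i + j] g, f⟫_ℂ).re
    rw [← hsa, add_comm i j, Function.iterate_add_apply]
  have h1 : ∀ n, a n ^ 2 ≤ a 0 * a (2 * n) := by
    intro n
    have h2 := (hLP 0).cs hA (hLP n)
    rw [hij 0 n, hij 0 0, hij n n, zero_add, zero_add, ← two_mul] at h2
    exact h2
  have h0 : 0 ≤ a 0 := by
    have := (hLP 0).nonneg hA
    exact this
  have hbd : ∀ n, a n ≤ ‖g‖ * ‖f‖ := by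
    intro n
    exact (re_le _ _).trans (mul_le_mul_of_nonneg_right (hcon n g) (norm_nonneg f))
  show a 1 ≤ a 0
  by_contra hlt
  push Not at hlt
  rcases h0.lt_or_eq with h0' | h0'
  · -- growth
    set r : ℝ := a 1 / a 0 with hr
    have hr1 : 1 < r := by rw [hr, one_lt_div h0']; exact hlt
    have hk : ∀ k : ℕ, a 0 * r ^ (2 ^ k) ≤ a (2 ^ k) := by
      intro k
      induction k with
      | zero =>
        simp only [pow_zero, pow_one]
        rw [hr]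
        field_simp
        exact le_refl _
      | succ k ih =>
        have h2 := h1 (2 ^ k)
        have h3 : 2 * 2 ^ k = 2 ^ (k + 1) := by rw [pow_succ]; ring
        rw [h3] at h2
        have h4 : (a 0 * r ^ (2 ^ k)) ^ 2 ≤ a (2 ^ k) ^ 2 := by
          apply pow_le_pow_left₀ _ ih
          have : 0 < r := by linarith
          positivity
        have h5 : a 0 * (a 0 * r ^ (2 ^ (k + 1))) ≤ a 0 * a (2 ^ (k + 1)) := by
          calc a 0 * (a 0 * r ^ (2 ^ (k + 1))) = (a 0 * r ^ (2 ^ k)) ^ 2 := by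
                rw [pow_succ 2 k, pow_mul]; ring
            _ ≤ _ := h4.trans h2
        exact le_of_mul_le_mul_left h5 h0'
    obtain ⟨n, hn⟩ := pow_unbounded_of_one_lt (‖g‖ * ‖f‖ / a 0) hr1
    have h6 : r ^ n ≤ r ^ (2 ^ n) := pow_le_pow_right₀ hr1.le (Nat.lt_two_pow_self).le
    have h7 := hk n
    have h8 := hbd (2 ^ n)
    rw [div_lt_iff₀ h0'] at hn
    have h9 : r ^ n * a 0 ≤ r ^ (2 ^ n) * a 0 := mul_le_mul_of_nonneg_right h6 h0'.le
    linarith
  · have h2 := h1 1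
    rw [← h0', zero_mul] at h2
    rw [← h0'] at hlt
    have := pow_pos hlt 2
    linarith

theorem main : ReidStmt := by
  intro H _ _ _ A f g hA hP X κ₀ hX hκ₀ hgap
  have hLP := pair_LP hA hP
  have ha0 := hLP.nonneg hA
  have hXp : 0 < X - 1 := by linarith
  -- the functional `u ↦ Re ⟪f, u⟫`
  set L : H →L[ℝ] ℝ := Complex.reCLM.comp ((innerSL ℂ f).restrictScalars ℝ) with hL
  have hLv : ∀ u, L u = (⟪f, u⟫_ℂ).re := fun u => rfl
  have hi1 := ii hA hP.cont _ (wcont X) hX _ wbd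
  have e1 : f - A X f = (X - 1)⁻¹ • ∫ t in (1 : ℝ)..X, ((X - t) / (t + 1)) • A t g := by
    have := hP.eq X hX
    rw [this]; abel
  have e2 : ‖f‖ ^ 2 - (⟪A X f, f⟫_ℂ).re =
      (X - 1)⁻¹ * ∫ t in (1 : ℝ)..X, L (((X - t) / (t + 1)) • A t g) := by
    rw [ContinuousLinearMap.intervalIntegral_comp_comm L hi1]
    have : ‖f‖ ^ 2 - (⟪A X f, f⟫_ℂ).re = L (f - A X f) := by
      rw [hLv, inner_sub_right, Complex.sub_re, re_self, re_symm f (A X f)]
    rw [this, e1, map_smul, smul_eq_mul]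
  have e3 : ∫ t in (1 : ℝ)..X, L (((X - t) / (t + 1)) • A t g) ≤
      ∫ t in (1 : ℝ)..X, ((X - t) / 2) * (⟪g, f⟫_ℂ).re := by
    apply intervalIntegral.integral_mono_on_of_le_Ioo hX.le
    · exact ⟨L.integrable_comp hi1.1, L.integrable_comp hi1.2⟩
    · apply Continuous.intervalIntegrable
      fun_prop
    · intro t ht
      rw [map_smul, smul_eq_mul, hLv, ← re_symm]
      have h1 := a1_le hA hLP ht.1
      have ht1 : 1 < t := ht.1
      have ht2 : t < X := ht.2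
      have h2 : (X - t) / (t + 1) ≤ (X - t) / 2 := by
        apply div_le_div_of_nonneg_left <;> linarith
      have h3 : 0 ≤ (X - t) / (t + 1) := by apply div_nonneg <;> linarith
      calc (X - t) / (t + 1) * (⟪A t g, f⟫_ℂ).re ≤ (X - t) / (t + 1) * (⟪g, f⟫_ℂ).re :=
            mul_le_mul_of_nonneg_left h1 h3
        _ ≤ (X - t) / 2 * (⟪g, f⟫_ℂ).re := mul_le_mul_of_nonneg_right h2 ha0
  rw [intervalIntegral.integral_mul_const, int_lin] at e3
  rw [e2] at hgap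
  have h5 : κ₀ * ‖f‖ ^ 2 ≤ (X - 1)⁻¹ * ((X - 1) ^ 2 / 4 * (⟪g, f⟫_ℂ).re) :=
    hgap.trans (mul_le_mul_of_nonneg_left e3 (inv_nonneg.2 hXp.le))
  have h6 : (X - 1)⁻¹ * ((X - 1) ^ 2 / 4 * (⟪g, f⟫_ℂ).re) = (X - 1) / 4 * (⟪g, f⟫_ℂ).re := by
    field_simp
  rw [h6] at h5
  have h7 : 4 * κ₀ / (X - 1) * ‖f‖ ^ 2 = (4 / (X - 1)) * (κ₀ * ‖f‖ ^ 2) := by ring
  rw [h7]
  calc 4 / (X - 1) * (κ₀ * ‖f‖ ^ 2) ≤ 4 / (X - 1) * ((X - 1) / 4 * (⟪g, f⟫_ℂ).re) :=
        mul_le_mul_of_nonneg_left h5 (by positivity)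
    _ = (⟪g, f⟫_ℂ).re := by field_simp

end

end Pool.Agent.W494.BA.RE
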